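import Mathlib

set_option autoImplicit false

open Filter Topology MeasureTheory PiNat

namespace Pool.Agent.H.MP_0bef39_lc

abbrev Tr := List ℕ → Bool

def IF : Set Tr := {T | ∃ b : ℕ → ℕ, ∀ n, T (res b (n + 1)) = true}

lemma tendsto_of_res {α : Type} [TopologicalSpace α] (x : ℕ → ℕ → α) (y : ℕ → α)
    (h : ∀ n, res (x n) (n + 1) = res y (n + 1)) : Tendsto x atTop (𝓝 y) := by
  rw [tendsto_pi_nhds]
  intro m
  apply tendsto_const_nhds.congr'
  filter_upwards [eventually_ge_atTop m] with n hn
  exact (res_eq_res.1 (h n) (by omega)).symm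

def tr (c x : ℕ → Bool) : Tr := fun s => c (Encodable.encode (res x s.length, s))

lemma univ (D : Set (ℕ → Bool)) (hD : AnalyticSet D) : ∃ c, ∀ x, x ∈ D ↔ tr c x ∈ IF := by
  classical
  rw [AnalyticSet] at hD
  rcases hD with rfl | ⟨f, hf, rfl⟩
  · refine ⟨fun _ => false, fun x => ⟨fun h => h.elim, ?_⟩⟩
    rintro ⟨b, hb⟩
    simpa [tr] using hb 0
  · refine ⟨fun k => decide (∃ (b : ℕ → ℕ) (n : ℕ),
      k = Encodable.encode (res (f b) n, res b n)), fun x => ⟨?_, ?_⟩⟩
    · rintro ⟨b, rfl⟩
      refine ⟨b, fun n => ?_⟩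
      simp only [tr, res_length, decide_eq_true_eq]
      exact ⟨b, n + 1, rfl⟩
    · rintro ⟨b, hb⟩
      simp only [tr, res_length, decide_eq_true_eq] at hb
      choose b' m hm using hb
      have h1 : ∀ n, res x (n + 1) = res (f (b' n)) (m n) ∧ res b (n + 1) = res (b' n) (m n) :=
        fun n => Prod.mk.inj (Encodable.encode_injective (hm n))
      have h2 : ∀ n, m n = n + 1 := fun n => by
        have := congrArg List.length (h1 n).2
        simpa only [res_length] using this.symm
      have h3 : Tendsto b' atTop (𝓝 b) := tendsto_of_res _ _ fun n => by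
        rw [(h1 n).2, h2 n]
      have h4 : Tendsto (fun n => f (b' n)) atTop (𝓝 x) := tendsto_of_res _ _ fun n => by
        rw [(h1 n).1, h2 n]
      exact ⟨b, tendsto_nhds_unique ((hf.tendsto b).comp h3) h4⟩

lemma res_meas (n : ℕ) (u : List Bool) : MeasurableSet {x : ℕ → Bool | res x n = u} := by
  induction n generalizing u with
  | zero =>
    by_cases h : u = []
    · simp [h]
    · have : {x : ℕ → Bool | res x 0 = u} = ∅ := by
        ext x
        simp [Ne.symm h]
      rw [this]
      exact MeasurableSet.empty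
  | succ n ih =>
    rcases u with _ | ⟨a, u⟩
    · simp
    · have : {x : ℕ → Bool | res x (n + 1) = a :: u} = {x | x n = a} ∩ {x | res x n = u} := by
        ext x
        simp
      rw [this]
      exact (measurableSet_eq_fun (measurable_pi_apply n) measurable_const).inter (ih u)

lemma tr_meas : Measurable fun x : ℕ → Bool => tr x x := by
  refine measurable_pi_lambda _ fun s => ?_
  apply measurable_to_bool
  have : (fun x : ℕ → Bool => tr x x s) ⁻¹' {true} = ⋃ u : List Bool,
      {x : ℕ → Bool | res x s.length = u} ∩ {x | x (Encodable.encode (u, s)) = true} := by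
    ext x
    simp [tr]
  rw [this]
  exact MeasurableSet.iUnion fun u => (res_meas _ u).inter
    (measurableSet_eq_fun (measurable_pi_apply _) measurable_const)

theorem IF_not : ¬ MeasurableSet IF := by
  intro h
  have h1 : MeasurableSet ((fun x : ℕ → Bool => tr x x) ⁻¹' IF)ᶜ := (tr_meas h).compl
  have : PolishSpace (ℕ → Bool) := ⟨⟩
  obtain ⟨c, hc⟩ := univ _ h1.analyticSet
  have := hc c
  simp only [Set.mem_compl_iff, Set.mem_preimage] at this
  exact not_iff_self this

abbrev L2 := lp (fun _ : ℕ => ℝ) 2

instance : SecondCountableTopology L2 := by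
  have h1 : TopologicalSpace.IsSeparable (Set.univ : Set L2) := by
    have h2 : TopologicalSpace.IsSeparable
        (closure (Submodule.span ℝ (Set.range fun i : ℕ => (lp.single 2 i (1 : ℝ) : L2)) : Set L2)) :=
      ((Set.countable_range _).isSeparable.span).closure
    refine h2.mono fun f _ => ?_
    refine mem_closure_of_tendsto (lp.hasSum_single (by norm_num) f) (Eventually.of_forall fun s => ?_)
    refine Submodule.sum_mem _ fun i _ => ?_
    have : (lp.single 2 i (f i) : L2) = f i • (lp.single 2 i (1 : ℝ) : L2) := by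
      rw [← lp.single_smul]
      simp
    rw [this]
    exact Submodule.smul_mem _ _ (Submodule.subset_span ⟨i, rfl⟩)
  have : TopologicalSpace.SeparableSpace L2 := TopologicalSpace.isSeparable_univ_iff.1 h1
  exact UniformSpace.secondCountable_of_separable _

def ee : List ℕ ≃ ℕ := Denumerable.eqv (List ℕ)

def KK : AddSubgroup L2 where
  carrier := {v | (∀ s : List ℕ, ∃ m : ℤ, v (ee s) = m / 2 ^ s.length) ∧
    ∀ s : List ℕ, HasSum (fun i : ℕ => 2 * v (ee (i :: s))) (v (ee s))}
  zero_mem' := ⟨fun s => ⟨0, by simp⟩, fun s => by simp⟩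
  add_mem' := by
    rintro v w ⟨h1, h2⟩ ⟨h3, h4⟩
    refine ⟨fun s => ?_, fun s => ?_⟩
    · obtain ⟨m, hm⟩ := h1 s
      obtain ⟨k, hk⟩ := h3 s
      refine ⟨m + k, ?_⟩
      simp only [lp.coeFn_add, Pi.add_apply, hm, hk]
      push_cast
      ring
    · simpa only [lp.coeFn_add, Pi.add_apply, mul_add] using (h2 s).add (h4 s)
  neg_mem' := by
    rintro v ⟨h1, h2⟩
    refine ⟨fun s => ?_, fun s => ?_⟩
    · obtain ⟨m, hm⟩ := h1 s
      refine ⟨-m, ?_⟩
      simp only [lp.coeFn_neg, Pi.neg_apply, hm]
      push_cast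
      ring
    · simpa only [lp.coeFn_neg, Pi.neg_apply, mul_neg] using (h2 s).neg

lemma cont_apply (n : ℕ) : Continuous fun v : L2 => v n := by
  refine (LipschitzWith.of_dist_le_mul (K := 1) fun v w => ?_).continuous
  rw [dist_eq_norm, dist_eq_norm]
  simpa using lp.norm_apply_le_norm (by norm_num) (v - w) n

lemma int_eq (m k : ℤ) (n : ℕ) (h : |(m : ℝ) / 2 ^ n - k / 2 ^ n| < 1 / 2 ^ n) : m = k := by
  rw [← sub_div, abs_div, abs_of_pos (by positivity : (0 : ℝ) < 2 ^ n),
    div_lt_div_iff_of_pos_right (by positivity)] at h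
  have h1 : |m - k| < 1 := by exact_mod_cast h
  have := Int.abs_lt_one_iff.1 h1
  omega

instance KK_closed : IsClosed (KK : Set L2) := by
  apply isClosed_of_closure_subset
  intro v hv
  have h1 : ∀ s : List ℕ, ∃ m : ℤ, v (ee s) = m / 2 ^ s.length := by
    intro s
    have hc : IsClosed {v : L2 | ∃ m : ℤ, (m : ℝ) = 2 ^ s.length * v (ee s)} :=
      Int.isClosedEmbedding_coe_real.isClosed_range.preimage
        (continuous_const.mul (cont_apply (ee s)))
    have : v ∈ {v : L2 | ∃ m : ℤ, (m : ℝ) = 2 ^ s.length * v (ee s)} := by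
      refine closure_minimal (fun w hw => ?_) hc hv
      obtain ⟨m, hm⟩ := hw.1 s
      refine ⟨m, ?_⟩
      rw [hm]
      field_simp
    obtain ⟨m, hm⟩ := this
    refine ⟨m, ?_⟩
    rw [hm]
    field_simp
  refine ⟨h1, fun s => ?_⟩
  obtain ⟨w, hw, hd⟩ := Metric.mem_closure_iff.1 hv (1 / 2 ^ (s.length + 1)) (by positivity)
  have h2 : ∀ t : List ℕ, t.length ≤ s.length + 1 → v (ee t) = w (ee t) := by
    intro t ht
    obtain ⟨m, hm⟩ := h1 t
    obtain ⟨k, hk⟩ := hw.1 t
    have h3 : |v (ee t) - w (ee t)| ≤ dist v w := by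
      rw [dist_eq_norm]
      simpa using lp.norm_apply_le_norm (by norm_num) (v - w) (ee t)
    have h4 : (1 : ℝ) / 2 ^ (s.length + 1) ≤ 1 / 2 ^ t.length := by
      gcongr
      norm_num
    rw [hm, hk] at h3
    rw [hm, hk, int_eq m k t.length (by linarith)]
  have h5 := hw.2 s
  rw [h2 s (by omega)]
  convert h5 using 3 with i
  exact h2 _ (by simp)

lemma res_inj (b : ℕ → ℕ) : Function.Injective fun n => ee (res b n) := by
  intro n m h
  have := congrArg List.length (ee.injective h)
  simpa only [res_length] using this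

open Classical in
noncomputable def br (b : ℕ → ℕ) : L2 :=
  ⟨fun k => if ee.symm k = res b (ee.symm k).length then 1 / 2 ^ (ee.symm k).length else 0, by
    apply memℓp_gen
    rw [← (res_inj b).summable_iff]
    · have : Summable fun n : ℕ => ((1 : ℝ) / 4) ^ n := summable_geometric_of_lt_one (by norm_num) (by norm_num)
      refine this.congr fun n => ?_
      simp only [Function.comp, Equiv.symm_apply_apply, res_length, if_true]
      rw [Real.norm_eq_abs, abs_of_pos (by positivity)]
      norm_num
      rw [← pow_mul, mul_comm, pow_mul, ← inv_pow]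
      norm_num
    · intro k hk
      rw [if_neg]
      · simp
      · intro h
        refine hk ⟨(ee.symm k).length, ?_⟩
        show ee (res b (ee.symm k).length) = k
        rw [← h, Equiv.apply_symm_apply]⟩

open Classical in
lemma br_apply (b : ℕ → ℕ) (s : List ℕ) :
    br b (ee s) = if s = res b s.length then 1 / 2 ^ s.length else 0 := by
  simp [br]

lemma br_mem (b : ℕ → ℕ) : br b ∈ KK := by
  refine ⟨fun s => ?_, fun s => ?_⟩
  · rw [br_apply]
    split_ifs
    · exact ⟨1, by simp⟩
    · exact ⟨0, by simp⟩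
  · by_cases h : s = res b s.length
    · have h1 : br b (ee s) = 2 * br b (ee (b s.length :: s)) := by
        rw [br_apply, br_apply, if_pos h, if_pos (by simp [← h])]
        simp only [List.length_cons]
        rw [pow_succ]
        field_simp
      rw [h1]
      apply hasSum_single (b s.length)
      intro i hi
      rw [br_apply, if_neg (by simp [hi]), mul_zero]
    · have h1 : (fun i : ℕ => 2 * br b (ee (i :: s))) = fun _ => 0 := by
        funext i
        rw [br_apply, if_neg (by simp [h]), mul_zero]
      rw [h1, br_apply, if_neg h]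
      exact hasSum_zero

lemma branch (v : L2) (hv : v ∈ KK) (h0 : v (ee []) ≠ 0) :
    ∃ b : ℕ → ℕ, ∀ n, v (ee (res b n)) ≠ 0 := by
  have h1 : ∀ s : List ℕ, v (ee s) ≠ 0 → ∃ i, v (ee (i :: s)) ≠ 0 := by
    intro s hs
    by_contra hc
    push Not at hc
    have h2 := hv.2 s
    simp only [hc, mul_zero] at h2
    exact hs (h2.unique hasSum_zero)
  choose! f hf using h1
  let g : ℕ → List ℕ := fun n => Nat.rec [] (fun _ s => f s :: s) n
  have h2 : ∀ n, res (fun n => f (g n)) n = g n := by
    intro n
    induction n with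
    | zero => rfl
    | succ n ih => rw [res_succ, ih]
  refine ⟨fun n => f (g n), fun n => ?_⟩
  rw [h2]
  induction n with
  | zero => exact h0
  | succ n ih => exact hf _ ih

abbrev QQ := L2 ⧸ KK

noncomputable instance : MeasurableSpace QQ := borel QQ
instance : BorelSpace QQ := ⟨rfl⟩
instance : CompleteSpace QQ := QuotientAddGroup.completeSpace_left L2 KK
instance : PolishSpace QQ := inferInstance

def XX : Type := QQ × Tr × (List ℕ → ℝ)

noncomputable instance : MeasurableSpace XX := inferInstanceAs (MeasurableSpace (QQ × Tr × (List ℕ → ℝ)))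
instance : StandardBorelSpace XX := inferInstanceAs (StandardBorelSpace (QQ × Tr × (List ℕ → ℝ)))

noncomputable def act (v : L2) (x : QQ × Tr × (List ℕ → ℝ)) : QQ × Tr × (List ℕ → ℝ) :=
  ((v : QQ) + x.1, x.2.1, fun s => (if x.2.1 s = true ∧ s ≠ [] then 0 else v (ee s)) + x.2.2 s)

noncomputable instance : AddAction L2 XX where
  vadd := act
  zero_vadd x := by
    show act 0 x = x
    simp [act]
  add_vadd v w x := by
    show act (v + w) x = act v (act w x)
    simp only [act, QuotientAddGroup.mk_add, add_assoc, lp.coeFn_add, Pi.add_apply]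
    refine Prod.ext rfl (Prod.ext rfl ?_)
    funext s
    dsimp only
    split_ifs <;> simp [add_assoc]

lemma act_meas : @Measurable (L2 × XX) XX (@Prod.instMeasurableSpace _ _ (borel L2) _) _
    (fun p => p.1 +ᵥ p.2) := by
  let : MeasurableSpace L2 := borel L2
  have : BorelSpace L2 := ⟨rfl⟩
  show Measurable (fun p : L2 × (QQ × Tr × (List ℕ → ℝ)) => act p.1 p.2)
  refine Measurable.prodMk ?_ (Measurable.prodMk measurable_snd.snd.fst ?_)
  · exact (QuotientAddGroup.continuous_mk.measurable.comp measurable_fst).add measurable_snd.fst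
  · refine measurable_pi_lambda _ fun s => Measurable.add ?_ ?_
    · refine Measurable.ite ?_ measurable_const ((cont_apply _).measurable.comp measurable_fst)
      refine MeasurableSet.inter ?_ (MeasurableSet.const _)
      exact measurableSet_eq_fun ((measurable_pi_apply s).comp measurable_snd.snd.fst)
        measurable_const
    · exact (measurable_pi_apply s).comp measurable_snd.snd.snd

noncomputable def aa (T : Tr) : XX := ((0 : QQ), T, fun _ => (0 : ℝ))
noncomputable def bb (T : Tr) : XX := ((0 : QQ), T, fun s => if s = [] then (1 : ℝ) else 0)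

lemma red (T : Tr) : (∃ g : L2, g +ᵥ aa T = bb T) ↔ T ∈ IF := by
  constructor
  · rintro ⟨v, hv⟩
    have hv' : act v ((0 : QQ), T, fun _ => (0 : ℝ)) =
      ((0 : QQ), T, fun s => if s = [] then (1 : ℝ) else 0) := hv
    simp only [act, add_zero, Prod.mk.injEq, true_and, QuotientAddGroup.eq_zero_iff] at hv'
    obtain ⟨h1, h2⟩ := hv'
    have h3 := congrFun h2 []
    simp only [ne_eq, not_true, and_false, if_false, if_true] at h3
    obtain ⟨b, hb⟩ := branch v h1 (by rw [h3]; norm_num)
    refine ⟨b, fun n => ?_⟩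
    by_contra hc
    have h4 := congrFun h2 (res b (n + 1))
    rw [if_neg (fun h => hc h.1), if_neg (by simp)] at h4
    exact hb _ h4
  · rintro ⟨b, hb⟩
    refine ⟨br b, ?_⟩
    show act (br b) ((0 : QQ), T, fun _ => (0 : ℝ)) =
      ((0 : QQ), T, fun s => if s = [] then (1 : ℝ) else 0)
    simp only [act, add_zero, Prod.mk.injEq, true_and, QuotientAddGroup.eq_zero_iff]
    refine ⟨br_mem b, ?_⟩
    funext s
    rcases s with _ | ⟨i, s⟩
    · simp [br_apply]
    · rw [if_neg (List.cons_ne_nil i s)]
      split_ifs with h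
      · rfl
      · rw [br_apply, if_neg]
        intro h1
        apply h
        refine ⟨?_, List.cons_ne_nil i s⟩
        rw [h1]
        exact hb _

theorem main : ¬ MeasurableSet {p : XX × XX | ∃ g : L2, g +ᵥ p.1 = p.2} := by
  intro h
  apply IF_not
  have h1 : Measurable fun T : Tr => (aa T, bb T) := by
    refine Measurable.prodMk ?_ ?_
    · exact measurable_const.prodMk (measurable_id.prodMk measurable_const)
    · exact measurable_const.prodMk (measurable_id.prodMk measurable_const)
  have h2 := h1 h
  convert h2 using 1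
  ext T
  exact (red T).symm

end Pool.Agent.H.MP_0bef39_lc
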